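import Pool.Agent.W361.LQ.Stm

/-!
# Project LQ: assembly
-/

set_option autoImplicit false

namespace Pool.Agent.W361.LQ

open BoundedContinuousFunction Pool.Agent.Helper227 Pool.Agent.H685R3
open Pool.Agent.W952.LP (zero S_low S_inv)

theorem M_pos (n : ℕ) : 0 < M n := Nat.succ_pos _

/-- The degree of the construction. -/
theorem deg2 (hlow : S_low) (hinv : S_inv) : ∃ D : ℕ → Bool,
    ¬ TLe (jump D) (jump zero) ∧ TLe (jump (jump D)) (jump (jump zero)) := by
  obtain ⟨Z, hZ1, hZ2, hZ3⟩ := hlow (jump zero)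
  obtain ⟨D, hD1, hD2, hD3⟩ := hinv zero Z hZ1
  exact ⟨D, fun h => hZ2 (TuringReducible.trans hD3 h), TuringReducible.trans hD2.jump hZ3⟩

theorem K_compact (h : S_CPT) (S : Set ℕ) : IsCompact (K S) := (h.1 S).isCompact

theorem X_compact (h : S_CPT) (S : Set ℕ) : IsCompact (X S) := (K_compact h S).image h.2

/-- General form of the computability of the distances. -/
theorem comp' {α : Type} [Primcodable α] {D : ℕ → Bool} {s : ℕ → α} {G : α → α → ℕ → ℕ}
    (hG : Primrec fun x : α × α × ℕ => G x.1 x.2.1 x.2.2)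
    (h1 : SI D fun x : ℕ × α => s x.1 = x.2) :
    TuringReducible (fun m : ℕ => Part.some (G (s m.unpair.1) (s m.unpair.2.unpair.1)
      m.unpair.2.unpair.2)) (fun m => Part.some ((D m).toNat)) := by
  change RecursiveIn {chi D} _
  rw [SI.iff_recIn]
  have h2 : SI D fun x : ℕ × ℕ => ∃ c : α × α, (s x.1.unpair.1 = c.1 ∧
      s x.1.unpair.2.unpair.1 = c.2) ∧ G c.1 c.2 x.1.unpair.2.unpair.2 = x.2 := by
    refine SI.ex (p := fun (x : ℕ × ℕ) (c : α × α) => (s x.1.unpair.1 = c.1 ∧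
      s x.1.unpair.2.unpair.1 = c.2) ∧ G c.1 c.2 x.1.unpair.2.unpair.2 = x.2)
      (SI.and (SI.and ?_ ?_) ?_)
    · exact h1.comp (f := fun y : (ℕ × ℕ) × (α × α) => (y.1.1.unpair.1, y.2.1))
        ((Primrec.fst.comp (Primrec.unpair.comp (Primrec.fst.comp Primrec.fst))).pair
          (Primrec.fst.comp Primrec.snd))
    · exact h1.comp (f := fun y : (ℕ × ℕ) × (α × α) => (y.1.1.unpair.2.unpair.1, y.2.2))
        ((Primrec.fst.comp (Primrec.unpair.comp (Primrec.snd.comp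
          (Primrec.unpair.comp (Primrec.fst.comp Primrec.fst))))).pair
          (Primrec.snd.comp Primrec.snd))
    · have h3 : Primrec fun y : (ℕ × ℕ) × (α × α) => (y.2.1, y.2.2, y.1.1.unpair.2.unpair.2) :=
        (Primrec.fst.comp Primrec.snd).pair ((Primrec.snd.comp Primrec.snd).pair
        (Primrec.snd.comp (Primrec.unpair.comp (Primrec.snd.comp
          (Primrec.unpair.comp (Primrec.fst.comp Primrec.fst))))))
      exact SI.of_prim (Primrec.eq.comp (hG.comp h3) (Primrec.snd.comp Primrec.fst))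
  refine h2.of_eq fun x => ?_
  constructor
  · rintro ⟨c, ⟨h3, h4⟩, h5⟩
    rw [Part.mem_some_iff, h3, h4, h5]
  · intro h3
    rw [Part.mem_some_iff] at h3
    exact ⟨(s x.1.unpair.1, s x.1.unpair.2.unpair.1), ⟨rfl, rfl⟩, h3.symm⟩

/-- The distances are computable in the oracle. -/
theorem comp (hFP : S_FP) (hNM : S_NM) {D : ℕ → Bool} {T : ℕ → ℕ → Bool}
    (hT : TLe (fun m => T m.unpair.1 m.unpair.2) D) :
    TuringReducible (fun m : ℕ => Part.some (F (sq T m.unpair.1) (sq T m.unpair.2.unpair.1)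
      m.unpair.2.unpair.2)) (fun m => Part.some ((D m).toNat)) :=
  comp' (G := F) hFP (hNM D T hT)

/-- The final statement, from the parts. -/
theorem fin (hCPT : S_CPT) (hDIV : S_DIV) (hNON : S_NON) (hDENSE : S_DENSE) (hVAL : S_VAL)
    (hAPX : S_APX) (hFP : S_FP) (hNM : S_NM) (hLT : S_LT) (hCX : S_CX) (hNEAR : S_NEAR)
    (hINIT : S_INIT) (hBACK : S_BACK) (hFORTH : S_FORTH) (hPI : S_PI) (hTAB : S_TAB)
    (hLOW2 : S_LOW2) (hlow : S_low) (hinv : S_inv) :
    ∃ g : ℕ → ℕ,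
    (∀ R : ℕ → ℕ,
      TuringReducible (fun m => Part.some (R m)) (fun m => Part.some (g m)) →
      ∃ S T : ℕ → ℕ, Computable S ∧ Computable T ∧ ∀ n : ℕ,
        ((∃ a : ℕ, ∀ b : ℕ, R (Nat.pair n (Nat.pair a b)) = 0) ↔
          ∃ a : ℕ, ∀ b : ℕ, ∃ c : ℕ, S (Nat.pair n (Nat.pair a (Nat.pair b c))) = 0) ∧
        ((¬ ∃ a : ℕ, ∀ b : ℕ, R (Nat.pair n (Nat.pair a b)) = 0) ↔
          ∃ a : ℕ, ∀ b : ℕ, ∃ c : ℕ, T (Nat.pair n (Nat.pair a (Nat.pair b c))) = 0)) ∧
    ∃ (P : Type) (_ : MetricSpace P), CompleteSpace P ∧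
      ∃ x : ℕ → P, DenseRange x ∧
      (∃ f : ℕ → ℕ,
        TuringReducible (fun m => Part.some (f m)) (fun m => Part.some (g m)) ∧
        ∀ i j k : ℕ,
          |(f (Nat.pair i (Nat.pair j k)) : ℝ) / 2 ^ k - dist (x i) (x j)| ≤ 1 / 2 ^ k) ∧
      (∀ (Q : Type) [MetricSpace Q], CompleteSpace Q →
        ∀ y : ℕ → Q, DenseRange y →
        (∃ h : ℕ → ℕ, Computable h ∧
          ∀ i j k : ℕ,
            |(h (Nat.pair i (Nat.pair j k)) : ℝ) / 2 ^ k - dist (y i) (y j)| ≤ 1 / 2 ^ k) →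
        IsEmpty (P ≃ₜ Q)) := by
  obtain ⟨D, hD1, hD2⟩ := deg2 hlow hinv
  obtain ⟨T, hT1, hT2⟩ := hTAB D
  let S : Set ℕ := {n | jump D n = false}
  have hS : ∀ n, n ∉ S ↔ ∃ y, T n y = true := by
    intro n
    rw [← hT2 n]
    simp [S]
  obtain ⟨hmem, hdense⟩ := hDENSE S T hS
  have hcX : CompactSpace (X S) := isCompact_iff_compactSpace.1 (X_compact hCPT S)
  refine ⟨fun m => (D m).toNat, hLOW2 D hD2, X S, inferInstance, inferInstance,
    fun k => pt S (pm (sq T k)) (hmem k), ?_, ?_, ?_⟩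
  · rw [Metric.denseRange_iff]
    rintro ⟨_, a, ha, rfl⟩ r hr
    obtain ⟨k, hk⟩ := hdense a ha r hr
    exact ⟨k, hk⟩
  · refine ⟨fun m : ℕ => F (sq T m.unpair.1) (sq T m.unpair.2.unpair.1) m.unpair.2.unpair.2,
      comp hFP hNM hT1, fun i j k => ?_⟩
    simp only [Nat.unpair_pair]
    exact hAPX hVAL (sq T i) (sq T j) k
  · intro Q _ _ y hy hpres
    obtain ⟨h, hh1, hh2⟩ := hpres
    refine ⟨fun φ => ?_⟩
    have hcQ : CompactSpace Q := φ.compactSpace
    obtain ⟨f, hf1, hf2⟩ := hDIV S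
    let f' : C(Q, UnitAddCircle) := ⟨fun q => f (φ.symm q), f.continuous.comp φ.symm.continuous⟩
    obtain ⟨C, d, hC⟩ := hINIT Q y hy f'
    obtain ⟨hL, hG⟩ := hLT (fun i j => dist (y i) (y j)) h hh1 hh2
    have key : ∀ n : ℕ, jump D n = false ↔ ∃ (E : List (ℕ × ℕ)) (e : ℕ),
        Cond (LtY y) (GtY y) C d (M n) E e := by
      intro n
      constructor
      · intro hn
        obtain ⟨g, hg⟩ := hf2 n hn
        let g' : C(Q, UnitAddCircle) :=
          ⟨fun q => g (φ.symm q), g.continuous.comp φ.symm.continuous⟩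
        exact hFORTH hNEAR Q y hy f' g' C d (M n) (M_pos n) hC fun q => hg (φ.symm q)
      · rintro ⟨E, e, hE⟩
        obtain ⟨g', hg'⟩ := hBACK hNEAR Q y hy f' C d (M n) (M_pos n) hC E e hE
        let g : C(X S, UnitAddCircle) := ⟨fun x => g' (φ x), g'.continuous.comp φ.continuous⟩
        refine hNON S f g n hf1 fun x => ?_
        have h3 := hg' (φ x)
        simp only [f', ContinuousMap.coe_mk, Homeomorph.symm_apply_apply] at h3
        exact h3
    refine hPI D hD1 ?_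
    exact (hCX (LtY y) (GtY y) hL hG C d).of_eq fun n => (key n).symm

end Pool.Agent.W361.LQ
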