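import Pool.Agent.W361.LQ.Defs
import Pool.Agent.W952.LP.Stm

/-!
# Project LQ: the statements of the parts
-/

set_option autoImplicit false

namespace Pool.Agent.W361.LQ

open BoundedContinuousFunction Pool.Agent.Helper227 Pool.Agent.H685R3
open Pool.Agent.W952.LP (zero)

/-! ## Topology of the space -/

/-- LQ-CPT: closedness of `K S` and continuity of `Phi`. -/
def S_CPT : Prop := (∀ S : Set ℕ, IsClosed (K S)) ∧ Continuous Phi

/-- LQ-INJ: `Phi` determines `z`, the radii, and the angles of nonzero radius. -/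
def S_INJ : Prop := ∀ a b : Pm, Phi a = Phi b →
  a.1 = b.1 ∧ ∀ n, a.2.1 n = b.2.1 n ∧ (a.2.1 n ≠ 0 → a.2.2 n = b.2.2 n)

/-- LQ-DIV: the map to the circle, and its divisibility for `n ∈ S`. -/
def S_DIV : Prop := ∀ S : Set ℕ, ∃ f : C(X S, UnitAddCircle),
  (∀ (a : Pm) (h : a ∈ K S), f (pt S a h) = a.1) ∧
    ∀ n ∈ S, ∃ g : C(X S, UnitAddCircle), ∀ x, M n • g x = f x

/-- LQ-NON: no divisibility for `n ∉ S`. -/
def S_NON : Prop := ∀ (S : Set ℕ) (f g : C(X S, UnitAddCircle)) (n : ℕ),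
  (∀ (a : Pm) (h : a ∈ K S), f (pt S a h) = a.1) → (∀ x, M n • g x = f x) → n ∈ S

/-! ## The dense sequence -/

/-- LQ-DENSE: the sequence is in the space and is dense. -/
def S_DENSE : Prop := ∀ (S : Set ℕ) (T : ℕ → ℕ → Bool), (∀ n, n ∉ S ↔ ∃ y, T n y = true) →
  (∀ k, pm (sq T k) ∈ K S) ∧
    ∀ a ∈ K S, ∀ ε : ℝ, 0 < ε → ∃ k, dist (Phi a) (Phi (pm (sq T k))) < ε

/-- LQ-VAL: the rational values of the coordinates. -/
def S_VAL : Prop := ∀ (c : Cd) (i : ℕ), 0 < (q0 c i).2 ∧ 0 < (q1 c i).2 ∧ 0 < (q2 c i).2 ∧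
  crd (pm c) i = (((q0 c i).1 : ℝ) / (q0 c i).2, ((q1 c i).1 : ℝ) / (q1 c i).2,
    ((q2 c i).1 : ℝ) / (q2 c i).2)

/-- LQ-APX: `F` approximates the distance. -/
def S_APX : Prop := S_VAL → ∀ (c c' : Cd) (k : ℕ),
  |(F c c' k : ℝ) / 2 ^ k - dist (Phi (pm c)) (Phi (pm c'))| ≤ 1 / 2 ^ k

/-- LQ-FP: `F` is primitive recursive. -/
def S_FP : Prop := Primrec fun x : Cd × Cd × ℕ => F x.1 x.2.1 x.2.2

/-- LQ-NM: the dense sequence is computable with the oracle. -/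
def S_NM : Prop := ∀ (D : ℕ → Bool) (T : ℕ → ℕ → Bool),
  TLe (fun m => T m.unpair.1 m.unpair.2) D → SI D fun x : ℕ × Cd => sq T x.1 = x.2

/-! ## The complexity of divisibility -/

/-- LQ-LT: strict inequalities between distances and rational numbers are computably enumerable. -/
def S_LT : Prop := ∀ (d : ℕ → ℕ → ℝ) (h : ℕ → ℕ), Computable h →
  (∀ i j k : ℕ, |(h (Nat.pair i (Nat.pair j k)) : ℝ) / 2 ^ k - d i j| ≤ 1 / 2 ^ k) →
  S1 (fun q : ℕ × ℕ × ℕ × ℕ => d q.1 q.2.1 < (q.2.2.1 : ℝ) / ((q.2.2.2 : ℝ) + 1)) ∧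
    S1 (fun q : ℕ × ℕ × ℕ × ℕ => (q.2.2.1 : ℝ) / ((q.2.2.2 : ℝ) + 1) < d q.1 q.2.1)

/-- LQ-CX: the complexity of the existence of the finite data. -/
def S_CX : Prop := ∀ Lt Gt : ℕ × ℕ × ℕ × ℕ → Prop, S1 Lt → S1 Gt → ∀ (C : List (ℕ × ℕ)) (d : ℕ),
  SI (jump zero) fun n : ℕ => ∃ (E : List (ℕ × ℕ)) (e : ℕ), Cond Lt Gt C d (M n) E e

/-- LQ-NEAR: the meaning of `near`. -/
def S_NEAR : Prop := ∀ N k a b : ℕ, 0 < N →
  (near N k a b ↔ ‖((((a : ℝ) / N : ℝ) : UnitAddCircle) - (((b : ℝ) / N : ℝ) : UnitAddCircle))‖ ≤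
    (k : ℝ) / N)

/-- LQ-INIT: existence of finite data for a continuous map. -/
def S_INIT : Prop := ∀ (Y : Type) [MetricSpace Y] [CompactSpace Y] (y : ℕ → Y), DenseRange y →
  ∀ f : C(Y, UnitAddCircle), ∃ (C : List (ℕ × ℕ)) (d : ℕ), Fine y f C d

/-- LQ-BACK: from the finite data to the divisibility. -/
def S_BACK : Prop := S_NEAR → ∀ (Y : Type) [MetricSpace Y] [CompactSpace Y] (y : ℕ → Y),
  DenseRange y → ∀ (f : C(Y, UnitAddCircle)) (C : List (ℕ × ℕ)) (d m : ℕ), 0 < m → Fine y f C d →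
    ∀ (E : List (ℕ × ℕ)) (e : ℕ), Cond (LtY y) (GtY y) C d m E e →
      ∃ g : C(Y, UnitAddCircle), ∀ x, m • g x = f x

/-- LQ-FORTH: from the divisibility to the finite data. -/
def S_FORTH : Prop := S_NEAR → ∀ (Y : Type) [MetricSpace Y] [CompactSpace Y] (y : ℕ → Y),
  DenseRange y → ∀ (f g : C(Y, UnitAddCircle)) (C : List (ℕ × ℕ)) (d m : ℕ), 0 < m →
    Fine y f C d → (∀ x, m • g x = f x) →
      ∃ (E : List (ℕ × ℕ)) (e : ℕ), Cond (LtY y) (GtY y) C d m E e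

/-! ## Degrees -/

/-- LQ-PI: a `Π₁` set in a nonlow oracle which is not `Σ₂`. -/
def S_PI : Prop := ∀ D : ℕ → Bool, ¬ TLe (jump D) (jump zero) →
  ¬ SI (jump zero) fun n : ℕ => jump D n = false

/-- LQ-TAB: a table for the complement of the jump. -/
def S_TAB : Prop := ∀ D : ℕ → Bool, ∃ T : ℕ → ℕ → Bool,
  TLe (fun m => T m.unpair.1 m.unpair.2) D ∧ ∀ n, jump D n = true ↔ ∃ y, T n y = true

/-- LQ-LOW2: the low₂ condition of the frozen statement. -/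
def S_LOW2 : Prop := ∀ D : ℕ → Bool, TLe (jump (jump D)) (jump (jump zero)) →
  ∀ R : ℕ → ℕ, TuringReducible (fun m => Part.some (R m)) (fun m => Part.some ((D m).toNat)) →
    ∃ S T : ℕ → ℕ, Computable S ∧ Computable T ∧ ∀ n : ℕ,
      ((∃ a : ℕ, ∀ b : ℕ, R (Nat.pair n (Nat.pair a b)) = 0) ↔
        ∃ a : ℕ, ∀ b : ℕ, ∃ c : ℕ, S (Nat.pair n (Nat.pair a (Nat.pair b c))) = 0) ∧
      ((¬ ∃ a : ℕ, ∀ b : ℕ, R (Nat.pair n (Nat.pair a b)) = 0) ↔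
        ∃ a : ℕ, ∀ b : ℕ, ∃ c : ℕ, T (Nat.pair n (Nat.pair a (Nat.pair b c))) = 0)

end Pool.Agent.W361.LQ
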