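import Mathlib

/-!
# Project LQ (MP_3235d4_lc, S14549): a low₂-presented Polish space without computable copy

Definitions. For a set `S` of natural numbers the space `X S` is compact and has a continuous map
to the circle which is divisible by `M n` (in the group of continuous maps to the circle) exactly
if `n ∈ S`.
-/

set_option autoImplicit false

namespace Pool.Agent.W361.LQ

open BoundedContinuousFunction

/-- The Fermat numbers (pairwise coprime). -/
def M (n : ℕ) : ℕ := 2 ^ 2 ^ n + 1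

/-- The parameter space: `z`, the radii `r n`, the angles `w n`. -/
abbrev Pm : Type := UnitAddCircle × (ℕ → unitInterval) × (ℕ → UnitAddCircle)

/-- The parameters belonging to the set `S`. -/
def K (S : Set ℕ) : Set Pm := {a | ∀ n, M n • a.2.2 n = a.1 ∧ (n ∈ S → a.2.1 n = 1)}

/-- The point of the cone over the circle with radius `r` and angle `w`. -/
noncomputable def co (r : ℝ) (w : UnitAddCircle) : ℝ × ℝ × ℝ :=
  (r, r * ‖w‖, r * ‖w + ((1 / 4 : ℝ) : UnitAddCircle)‖)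

/-- The coordinates of a point. -/
noncomputable def crd (a : Pm) (i : ℕ) : ℝ × ℝ × ℝ :=
  if i = 0 then co 1 a.1 else ((1 / 2 : ℝ) ^ i) • co (a.2.1 (i - 1) : ℝ) (a.2.2 (i - 1))

theorem norm_circle_le (w : UnitAddCircle) : ‖w‖ ≤ 1 / 2 := by
  have := AddCircle.norm_le_half_period (p := (1 : ℝ)) one_ne_zero (x := w)
  simpa using this

theorem norm_co_le (r : ℝ) (w : UnitAddCircle) (h0 : 0 ≤ r) (h1 : r ≤ 1) : ‖co r w‖ ≤ 1 := by
  have h2 := norm_circle_le w
  have h3 := norm_circle_le (w + ((1 / 4 : ℝ) : UnitAddCircle))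
  have h4 := norm_nonneg w
  have h5 := norm_nonneg (w + ((1 / 4 : ℝ) : UnitAddCircle))
  simp only [co, Prod.norm_def, Real.norm_eq_abs, max_le_iff]
  refine ⟨by rw [abs_of_nonneg h0]; exact h1, ?_, ?_⟩
  · rw [abs_of_nonneg (mul_nonneg h0 h4)]
    nlinarith
  · rw [abs_of_nonneg (mul_nonneg h0 h5)]
    nlinarith

theorem norm_crd_le' (a : Pm) (i : ℕ) : ‖crd a i‖ ≤ (1 / 2 : ℝ) ^ i := by
  unfold crd
  split_ifs with h
  · subst h
    simpa using norm_co_le 1 a.1 zero_le_one le_rfl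
  · rw [norm_smul, norm_pow]
    have h1 := norm_co_le (a.2.1 (i - 1) : ℝ) (a.2.2 (i - 1)) (a.2.1 (i - 1)).2.1
      (a.2.1 (i - 1)).2.2
    have h2 : ‖(1 / 2 : ℝ)‖ = 1 / 2 := by norm_num
    rw [h2]
    exact mul_le_of_le_one_right (by positivity) h1

theorem norm_crd_le (a : Pm) (i : ℕ) : ‖crd a i‖ ≤ 1 :=
  (norm_crd_le' a i).trans (pow_le_one₀ (by norm_num) (by norm_num))

/-- The map from the parameters to the ambient metric space of bounded sequences (with the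
supremum metric). -/
noncomputable def Phi (a : Pm) : ℕ →ᵇ ℝ × ℝ × ℝ :=
  BoundedContinuousFunction.ofNormedAddCommGroupDiscrete (crd a) 1 (norm_crd_le a)

@[simp] theorem Phi_apply (a : Pm) (i : ℕ) : Phi a i = crd a i := rfl

/-- The space. -/
def X (S : Set ℕ) : Set (ℕ →ᵇ ℝ × ℝ × ℝ) := Phi '' K S

/-- The point of the space with parameter `a`. -/
noncomputable def pt (S : Set ℕ) (a : Pm) (h : a ∈ K S) : X S := ⟨Phi a, a, h, rfl⟩

/-! ## The dense sequence -/

/-- Codes of points: `(A, l, L)` with `z = A / 2 ^ l`, `w n = (z + j n) / M n`,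
`r n = 1 - min (ρ n) (2 ^ l) / 2 ^ l`, `(j n, ρ n) = L[n]` (default `(0,0)`). -/
abbrev Cd : Type := ℕ × ℕ × List (ℕ × ℕ)

/-- the number `j n` -/
def jj (c : Cd) (n : ℕ) : ℕ := (c.2.2.getD n (0, 0)).1

/-- the numerator of `r n` over `2 ^ l` -/
def rho (c : Cd) (n : ℕ) : ℕ := 2 ^ c.2.1 - min (c.2.2.getD n (0, 0)).2 (2 ^ c.2.1)

/-- the radius `r n` -/
noncomputable def rr (c : Cd) (n : ℕ) : unitInterval :=
  ⟨(rho c n : ℝ) / 2 ^ c.2.1, by
    constructor
    · positivity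
    · rw [div_le_one (by positivity)]
      exact_mod_cast Nat.sub_le _ _⟩

/-- The parameters of the point with code `c`. -/
noncomputable def pm (c : Cd) : Pm :=
  ((((c.1 : ℝ) / 2 ^ c.2.1 : ℝ) : UnitAddCircle), fun n => rr c n,
    fun n => ((((c.1 : ℝ) / 2 ^ c.2.1 + jj c n) / M n : ℝ) : UnitAddCircle))

/-- `fl T n s` tells whether `n` has left `S` before stage `s`. -/
def fl (T : ℕ → ℕ → Bool) (n s : ℕ) : Bool := (List.range s).any fun y => T n y

/-- The list `L` with the radii of the elements which have not left `S` corrected to `1`. -/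
def nm (T : ℕ → ℕ → Bool) (s : ℕ) (L : List (ℕ × ℕ)) : List (ℕ × ℕ) :=
  (List.range L.length).map fun n =>
    ((L.getD n (0, 0)).1, if fl T n s then (L.getD n (0, 0)).2 else 0)

/-- the raw code with number `k` -/
def raw (k : ℕ) : ℕ × ℕ × ℕ × List (ℕ × ℕ) :=
  (Encodable.decode (α := ℕ × ℕ × ℕ × List (ℕ × ℕ)) k).getD (0, 0, 0, [])

/-- the code of the `k`-th point of the dense sequence -/
def sq (T : ℕ → ℕ → Bool) (k : ℕ) : Cd :=
  ((raw k).1, (raw k).2.1, nm T (raw k).2.2.1 (raw k).2.2.2)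

/-! ## Rational values of the coordinates -/

/-- `Q` times the distance of `P / Q` to the nearest integer -/
def tr (P Q : ℕ) : ℕ := min (P % Q) (Q - P % Q)

/-- numerator of the angle of coordinate `i` -/
def pP (c : Cd) (i : ℕ) : ℕ := if i = 0 then c.1 else c.1 + jj c (i - 1) * 2 ^ c.2.1

/-- denominator of the angle of coordinate `i` -/
def pQ (c : Cd) (i : ℕ) : ℕ := if i = 0 then 2 ^ c.2.1 else 2 ^ c.2.1 * M (i - 1)

/-- numerator of the radius of coordinate `i` over `2 ^ l` -/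
def pR (c : Cd) (i : ℕ) : ℕ := if i = 0 then 2 ^ c.2.1 else rho c (i - 1)

/-- numerators and denominators of the three numbers in coordinate `i` -/
def q0 (c : Cd) (i : ℕ) : ℕ × ℕ := (pR c i, 2 ^ i * 2 ^ c.2.1)
/-- see `q0` -/
def q1 (c : Cd) (i : ℕ) : ℕ × ℕ := (pR c i * tr (pP c i) (pQ c i), 2 ^ i * 2 ^ c.2.1 * pQ c i)
/-- see `q0` -/
def q2 (c : Cd) (i : ℕ) : ℕ × ℕ :=
  (pR c i * tr (4 * pP c i + pQ c i) (4 * pQ c i), 2 ^ i * 2 ^ c.2.1 * (4 * pQ c i))

/-- the absolute value of the difference of the approximations `⌊2 ^ N x⌋`, `⌊2 ^ N y⌋` of two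
rational numbers -/
def nd (N : ℕ) (x y : ℕ × ℕ) : ℕ :=
  (2 ^ N * x.1 / x.2 - 2 ^ N * y.1 / y.2) + (2 ^ N * y.1 / y.2 - 2 ^ N * x.1 / x.2)

/-- the maximum over the first coordinates -/
def mx (N : ℕ) (c c' : Cd) : ℕ → ℕ
  | 0 => 0
  | i + 1 => max (mx N c c' i)
      (max (nd N (q0 c i) (q0 c' i)) (max (nd N (q1 c i) (q1 c' i)) (nd N (q2 c i) (q2 c' i))))

/-- `2 ^ k` times the distance of the points with codes `c`, `c'`, up to an error of at most 1 -/
def F (c c' : Cd) (k : ℕ) : ℕ := mx (k + 3) c c' (k + 4) / 8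

/-! ## Finite data for divisibility -/

/-- `a - b` is congruent to one of `-k, …, k` modulo `N`. -/
def near (N k a b : ℕ) : Prop := ∃ i < 2 * k + 1, (a + k) % N = (b + i) % N

/-- The finite data `(C, d)` describe the map `f` to the circle. -/
structure Fine {Y : Type} [MetricSpace Y] (y : ℕ → Y) (f : Y → UnitAddCircle)
    (C : List (ℕ × ℕ)) (d : ℕ) : Prop where
  unif : ∀ a b : Y, dist a b ≤ 2 / ((d : ℝ) + 1) → ‖f a - f b‖ ≤ 1 / 16
  net : ∀ a : Y, ∃ c ∈ C, dist a (y c.1) < 1 / ((d : ℝ) + 1)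
  val : ∀ c ∈ C, ‖f (y c.1) - (((c.2 : ℝ) / 16 : ℝ) : UnitAddCircle)‖ ≤ 1 / 32

/-- The finite data `(E, e)` describe an `m`-th part of the map described by `(C, d)`; `Lt (i,j,a,b)`
stands for `dist (y i) (y j) < a / (b + 1)` and `Gt (i,j,a,b)` for `a / (b + 1) < dist (y i) (y j)`. -/
structure Cond (Lt Gt : ℕ × ℕ × ℕ × ℕ → Prop) (C : List (ℕ × ℕ)) (d m : ℕ) (E : List (ℕ × ℕ))
    (e : ℕ) : Prop where
  le : d ≤ e
  cover : ∀ j, ∃ p ∈ E, ¬ Gt (j, p.1, 1, e)
  cons : ∀ p ∈ E, ∀ p' ∈ E, Lt (p.1, p'.1, 3, e) → near (16 * m) 2 p.2 p'.2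
  root : ∀ p ∈ E, ∃ c ∈ C, Lt (p.1, c.1, 1, d) ∧ near 16 2 p.2 c.2

/-- the inequality `dist (y i) (y j) < a / (b + 1)` -/
def LtY {Y : Type} [MetricSpace Y] (y : ℕ → Y) (q : ℕ × ℕ × ℕ × ℕ) : Prop :=
  dist (y q.1) (y q.2.1) < (q.2.2.1 : ℝ) / ((q.2.2.2 : ℝ) + 1)

/-- the inequality `a / (b + 1) < dist (y i) (y j)` -/
def GtY {Y : Type} [MetricSpace Y] (y : ℕ → Y) (q : ℕ × ℕ × ℕ × ℕ) : Prop :=
  (q.2.2.1 : ℝ) / ((q.2.2.2 : ℝ) + 1) < dist (y q.1) (y q.2.1)

/-! ## Basic facts about the circle -/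

theorem lift (u : UnitAddCircle) : ∃ x : ℝ, (x : UnitAddCircle) = u ∧ |x| = ‖u‖ := by
  induction u using QuotientAddGroup.induction_on with
  | H x =>
    refine ⟨x - round x, ?_, ?_⟩
    · have : ((round x : ℝ) : UnitAddCircle) = 0 := by
        have := AddCircle.coe_period (p := (1 : ℝ))
        rw [AddCircle.coe_eq_zero_iff]
        exact ⟨round x, by simp⟩
      rw [AddCircle.coe_sub, this, sub_zero]
    · exact (UnitAddCircle.norm_eq (x := x)).symm

theorem norm_coe_le (x : ℝ) : ‖(x : UnitAddCircle)‖ ≤ |x| := by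
  rw [UnitAddCircle.norm_eq]
  simpa using round_le x 0

theorem tor {m : ℕ} {u : UnitAddCircle} (h : m • u = 0) (h1 : ‖u‖ < 1 / (m : ℝ)) : u = 0 := by
  obtain ⟨x, rfl, hx⟩ := lift u
  rcases Nat.eq_zero_or_pos m with rfl | hm
  · simp only [CharP.cast_eq_zero, div_zero] at h1
    exact absurd h1 (not_lt.2 (norm_nonneg _))
  have hm' : (0 : ℝ) < m := by exact_mod_cast hm
  have h2 : ((m * x : ℝ) : UnitAddCircle) = 0 := by
    rw [← h, ← nsmul_eq_mul]
    exact (AddCircle.coe_nsmul (p := (1 : ℝ)) (n := m) (x := x))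
  rw [AddCircle.coe_eq_zero_iff] at h2
  obtain ⟨n, hn⟩ := h2
  have h3 : |(n : ℝ)| < 1 := by
    have : (n : ℝ) = m * x := by simpa using hn
    rw [this, abs_mul, abs_of_pos hm', hx]
    rwa [lt_div_iff₀ hm', mul_comm] at h1
  have h4 : n = 0 := by
    have : |n| < 1 := by exact_mod_cast h3
    exact Int.abs_lt_one_iff.1 this
  subst h4
  have : (m : ℝ) * x = 0 := by simpa using hn.symm
  rcases mul_eq_zero.1 this with h5 | h5
  · exact absurd h5 hm'.ne'
  · rw [h5]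
    rfl

end Pool.Agent.W361.LQ
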